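import Pool.Agent.Work.MP_73831e_pr.Defs

/-!
MODULE S5/Bip (S-M, finite combinatorics).  A bipartite graph `Γ` between two copies of `Fin n` such
that any two different vertices with a common neighbour form a pair of `X` has at most
`4 |X| + 2 n` edges.

For `s : Fin n` let `d s = #{t | (s,t) ∈ Γ}`, `d' t = #{s | (s,t) ∈ Γ}`.
Edges with `d s ≤ d' t`: for fixed `s`, their number is at most `d s`, and if there is one, with `t`,
it is at most `d' t = #{s' | (s',t) ∈ Γ} ≤ 1 + #{s' | s' ≠ s, s(s,s') ∈ X}` (`h2`).  So for every `s`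
the number of such edges `(s,t)` is at most `1 + dX s`, `dX s = #{e ∈ X | s ∈ e}` (the map
`s' ↦ s(s,s')` is injective), and `∑_s (1 + dX s) = n + 2 |X|` (every pair has two ends).
Edges with `d' t ≤ d s`: symmetric, with `h1`.  Total `≤ 2 (n + 2 |X|)`.
-/

open Finset
open scoped Classical Nat

namespace Pool.Agent.Work.MP_73831e_pr.F

private theorem bp_two {n : ℕ} (e : Pr n) : (univ.filter (fun s : Fin n => s ∈ e.1)).card = 2 := by
  obtain ⟨e, he⟩ := e
  induction e using Sym2.ind with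
  | _ a b =>
    have hab : a ≠ b := fun h => he (Sym2.mk_isDiag_iff.2 h)
    have h1 : univ.filter (fun s : Fin n => s ∈ s(a, b)) = {a, b} := by
      ext s
      rw [mem_filter, mem_insert, mem_singleton, Sym2.mem_iff]
      simp
    rw [h1, card_pair hab]

theorem sum_dX {n : ℕ} (X : Finset (Pr n)) :
    ∑ s : Fin n, (X.filter (fun e => s ∈ e.1)).card = 2 * X.card := by
  have h1 : ∀ s : Fin n, (X.filter (fun e => s ∈ e.1)).card = ∑ e ∈ X, if s ∈ e.1 then 1 else 0 :=
    fun s => card_filter _ _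
  rw [sum_congr rfl (fun s _ => h1 s), sum_comm]
  have h2 : ∀ e ∈ X, (∑ s : Fin n, if s ∈ e.1 then 1 else 0) = 2 := by
    intro e _
    rw [← card_filter]
    exact bp_two e
  rw [sum_congr rfl h2, sum_const, smul_eq_mul, mul_comm]

private theorem bp_one {n : ℕ} (Γ : Finset (Fin n × Fin n)) (X : Finset (Pr n))
    (h2 : ∀ s s' t, (s, t) ∈ Γ → (s', t) ∈ Γ → s ≠ s' → ∃ e ∈ X, e.1 = s(s, s')) :
    (Γ.filter (fun z => (Γ.filter (fun y => y.1 = z.1)).card ≤
      (Γ.filter (fun y => y.2 = z.2)).card)).card ≤ 2 * X.card + n := by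
  set Γ1 := Γ.filter (fun z => (Γ.filter (fun y => y.1 = z.1)).card ≤
      (Γ.filter (fun y => y.2 = z.2)).card) with hΓ1
  have hf : ∀ s : Fin n, (Γ1.filter (fun z => z.1 = s)).card ≤
      (X.filter (fun e => s ∈ e.1)).card + 1 := by
    intro s
    rcases (Γ1.filter (fun z => z.1 = s)).eq_empty_or_nonempty with h0 | ⟨z, hz⟩
    · rw [h0, card_empty]
      exact Nat.zero_le _
    · obtain ⟨hz1, hzs⟩ := mem_filter.1 hz
      obtain ⟨hzΓ, hzle⟩ := mem_filter.1 hz1
      obtain ⟨z1, t⟩ := z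
      have hzs' : z1 = s := hzs
      subst hzs'
      have h3 : (Γ1.filter (fun z => z.1 = z1)).card ≤ (Γ.filter (fun y => y.1 = z1)).card :=
        card_le_card (filter_subset_filter _ (filter_subset _ _))
      refine h3.trans (hzle.trans ?_)
      have hmem : (z1, t) ∈ Γ.filter (fun y => y.2 = t) := mem_filter.2 ⟨hzΓ, rfl⟩
      have h4 : ((Γ.filter (fun y => y.2 = t)).erase (z1, t)).card ≤
          (X.filter (fun e => z1 ∈ e.1)).card := by
        refine card_le_card_of_forall_subsingleton (fun y e => e.1 = s(z1, y.1)) ?_ ?_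
        · intro y hy
          obtain ⟨hy1, hy2⟩ := mem_erase.1 hy
          obtain ⟨hyΓ, hyt⟩ := mem_filter.1 hy2
          obtain ⟨y1, y2⟩ := y
          have hyt' : y2 = t := hyt
          subst hyt'
          have hne : z1 ≠ y1 := fun h => hy1 (by rw [h])
          obtain ⟨e, heX, he⟩ := h2 z1 y1 y2 hzΓ hyΓ hne
          exact ⟨e, mem_filter.2 ⟨heX, by rw [he]; exact Sym2.mem_mk_left _ _⟩, he⟩
        · intro e _ y hy y' hy'
          obtain ⟨hy1, hy2⟩ := hy
          obtain ⟨hy1', hy2'⟩ := hy'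
          have hyt : y.2 = t := (mem_filter.1 (mem_erase.1 hy1).2).2
          have hyt' : y'.2 = t := (mem_filter.1 (mem_erase.1 hy1').2).2
          have h5 : s(z1, y.1) = s(z1, y'.1) := by
            rw [← hy2]
            exact hy2'
          have h6 : y.1 = y'.1 := Sym2.congr_right.1 h5
          exact Prod.ext h6 (hyt.trans hyt'.symm)
      have h7 := card_erase_add_one hmem
      simp only at h7 ⊢
      omega
  have h8 : Γ1.card = ∑ s : Fin n, (Γ1.filter (fun z => z.1 = s)).card :=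
    card_eq_sum_card_fiberwise (fun z _ => mem_univ z.1)
  rw [h8]
  refine (sum_le_sum fun s _ => hf s).trans ?_
  rw [sum_add_distrib, sum_dX, sum_const, card_univ, Fintype.card_fin, smul_eq_mul, mul_one]

theorem bip {n : ℕ} (Γ : Finset (Fin n × Fin n)) (X : Finset (Pr n))
    (h1 : ∀ s t t', (s, t) ∈ Γ → (s, t') ∈ Γ → t ≠ t' → ∃ e ∈ X, e.1 = s(t, t'))
    (h2 : ∀ s s' t, (s, t) ∈ Γ → (s', t) ∈ Γ → s ≠ s' → ∃ e ∈ X, e.1 = s(s, s')) :
    Γ.card ≤ 4 * X.card + 2 * n := by
  have ha := bp_one Γ X h2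
  set Γ' := Γ.map (Equiv.prodComm (Fin n) (Fin n)).toEmbedding with hΓ'
  have hmem : ∀ s t, (s, t) ∈ Γ' ↔ (t, s) ∈ Γ := by
    intro s t
    rw [hΓ', mem_map_equiv]
    rfl
  have hb := bp_one Γ' X (fun s s' t hs hs' hne => h1 t s s' ((hmem s t).1 hs)
    ((hmem s' t).1 hs') hne)
  have hc1 : ∀ a, (Γ'.filter (fun y => y.1 = a)).card = (Γ.filter (fun y => y.2 = a)).card := by
    intro a
    rw [hΓ', filter_map, card_map]
    rfl
  have hc2 : ∀ a, (Γ'.filter (fun y => y.2 = a)).card = (Γ.filter (fun y => y.1 = a)).card := by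
    intro a
    rw [hΓ', filter_map, card_map]
    rfl
  have hb' : (Γ.filter (fun z => (Γ.filter (fun y => y.2 = z.2)).card ≤
      (Γ.filter (fun y => y.1 = z.1)).card)).card ≤ 2 * X.card + n := by
    refine (le_of_eq ?_).trans hb
    simp only [hc1, hc2]
    rw [hΓ', filter_map, card_map]
    rfl
  have h5 : Γ = Γ.filter (fun z => (Γ.filter (fun y => y.1 = z.1)).card ≤
      (Γ.filter (fun y => y.2 = z.2)).card) ∪ Γ.filter (fun z =>
      (Γ.filter (fun y => y.2 = z.2)).card ≤ (Γ.filter (fun y => y.1 = z.1)).card) := by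
    ext z
    rw [mem_union, mem_filter, mem_filter]
    constructor
    · intro hz
      rcases le_total (Γ.filter (fun y => y.1 = z.1)).card
        (Γ.filter (fun y => y.2 = z.2)).card with h | h
      · exact Or.inl ⟨hz, h⟩
      · exact Or.inr ⟨hz, h⟩
    · rintro (h | h)
      · exact h.1
      · exact h.1
  have h6 := (card_le_card h5.subset).trans (card_union_le _ _)
  omega

end Pool.Agent.Work.MP_73831e_pr.F
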