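import Pool.Agent.Work.MP_73831e_pr.F.S5.Bip

/-!
MODULE S5/Comb (M, finite combinatorics).  Few `m`-tuples imply few `(m+1)`-tuples.

`𝒯` is a set of `(m+1)`-tuples, `m ≥ 2`; two tuples of `𝒯` which differ exactly at the coordinate `i`
have `s(v i, w i) ∈ X`; `𝒮` contains all the tuples obtained from `𝒯` by omitting one coordinate.
For `v ∈ 𝒯` and `i` let `a i v = #{w ∈ 𝒯 | ∀ j ≠ i, w j = v j}` (`≥ 1`).
Let `y = X.card / n + 1` (natural division), so `X.card < n y` and `n y ≤ X.card + n`, and `λ = q y`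
(if `n = 0` there are no tuples: `𝒯 = ∅` since `m + 1 ≥ 1`; assume `n ≥ 1`).
(1) The `v ∈ 𝒯` with `a i v ≤ λ` for some `i`: for fixed `i` group `𝒯` by the omitted tuple
`u = v ∘ i.succAbove ∈ 𝒮`: every group with at most `λ` elements contributes at most `λ`, so there are
at most `λ |𝒮|` of them for each `i`, in total at most `(m+1) λ |𝒮|`.
(2) The `v ∈ 𝒯` with `a i v > λ` for all `i`: all the coordinates `v i` are heavy, i.e.
`dX (v i) ≥ λ` where `dX t = #{e ∈ X | t ∈ e}` (the `≥ λ` other tuples `w` of the group have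
different `w i ≠ v i` with `s(v i, w i) ∈ X`).  Let `h` be the number of heavy vertices:
`h λ ≤ ∑ dX = 2 |X|` (`sum_dX`), so `h q y ≤ 2 n y`, `q h ≤ 2 n`.  Fix the coordinates
`u = (v 0, ..., v (m-2))`, `m - 1 ≥ 1` of them: at most `h ^ (m-1) ≤ h n ^ (m-2)` choices; for
each of them the last two coordinates form a set `Γ ⊆ Fin n × Fin n` as in `bip`, so there are at most
`4 |X| + 2 n ≤ 4 (|X| + n)` tuples.  So `q * #(2) ≤ q h n ^ (m-2) 4 (|X|+n) ≤ 8 n ^ (m-1) (|X|+n)`.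
(3) Multiply by `q n`: `q n |𝒯| ≤ q n (m+1) q y |𝒮| + 8 n ^ m (|X|+n)
 ≤ (|X|+n) ((m+1) q^2 |𝒮| + 8 n^m)`, using `n y ≤ |X| + n`.
-/

open Finset
open scoped Classical Nat

namespace Pool.Agent.Work.MP_73831e_pr.F

theorem comb {n m q : ℕ} (hm : 2 ≤ m) (hq : 1 ≤ q) (𝒯 : Finset (Fin (m + 1) → Fin n))
    (𝒮 : Finset (Fin m → Fin n)) (X : Finset (Pr n))
    (h1 : ∀ v ∈ 𝒯, ∀ i : Fin (m + 1), (fun j => v (i.succAbove j)) ∈ 𝒮)
    (h2 : ∀ v ∈ 𝒯, ∀ w ∈ 𝒯, ∀ i, (∀ j, j ≠ i → v j = w j) → v i ≠ w i →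
      ∃ e ∈ X, e.1 = s(v i, w i)) :
    q * n * 𝒯.card ≤ (X.card + n) * ((m + 1) * q ^ 2 * 𝒮.card + 8 * n ^ m) := by
  sorry

end Pool.Agent.Work.MP_73831e_pr.F
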