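import Pool.Agent.Work.MP_73831e_pr.F.Mass

/-!
FIXED DEFINITIONS for block S5 (folder F/S5): from fully critical vertices of degree `m + 1` to many
quasi-rainbow `m`-tuples.
-/

open Finset
open scoped Classical Nat

namespace Pool.Agent.Work.MP_73831e_pr.F

noncomputable section

/-- Pairs whose addition leaves at most two clusters of colourings. -/
def X2 {n : ℕ} (m K : ℕ) (H : Finset (Pr n)) : Finset (Pr n) :=
  univ.filter (fun e => e ∉ H ∧ Clu m 2 K (insert e H))

/-- The quasi-rainbow `j`-tuples. -/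
def QT {n : ℕ} (m K j : ℕ) (H : Finset (Pr n)) : Finset (Fin j → Fin n) :=
  univ.filter (fun v => QR m K H v)

/-- Weighted number of the pairs of `X2`, plus `n`. -/
def SS (m M K T n : ℕ) (B : Finset (Pr n) → Prop) : ℝ :=
  ∑ H ∈ univ.filter (fun H : Finset (Pr n) => H.card ≤ T ∧ Fa m M H ∧ ¬ Clu m 2 K H ∧ B H),
    nu H * (((X2 m K H).card : ℝ) + n)

end

end Pool.Agent.Work.MP_73831e_pr.F
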