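import Pool.Agent.Work.MP_73831e_pr.F.S5.Defs5
import Pool.Agent.Work.MP_73831e_pr.F.S2.Nu

/-!
MODULE S5/MassStar (M).  From the mass of pairs `(D, x)` with `dg D x = m + 1` to tuples of `D \ st x`.

Let `T = C n`, `N = NN n = Fintype.card (Pr n)`.
(1) `nu (insert y E) ≤ T / (N - T) * nu E` for `y ∉ E`, `|E| + 1 ≤ T < N`: the ratio is
`(|E| + 1) / (N - |E|)`.
(2) For `(D, x)` counted in `mass` with `Q D x` let `H = D \ st x`, `|D \ H| = dg D x = m + 1` (the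
edges of `D` at `x` are the `s(x,y)`, `y ∈ nb D x`), so `nu D ≤ (T/(N-T)) ^ (m+1) * nu H` by (1)
repeated; `|H| ≤ T`, `P H`.  Choose an enumeration `v` of `nb D x` (injective, `Fin (m+1)`, e.g.
`Finset.equivFinOfCardEq` or `Finset.orderEmbOfFin`); `v ∈ 𝒯 H`.  The map `(D, x) ↦ (H, x, v)` is injective:
`D = H ∪ {s(x, v i)}`.
(3) So `mass ≤ n * ∑_{H : |H| ≤ T, P H} ∑_x |𝒯 H| (T/(N-T))^(m+1) nu H
 = n * n * (T/(N-T))^(m+1) * ∑ nu H |𝒯 H|`, and for `n ≥ 4 C + 2`: `N - C n ≥ n^2/4`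
(`2 N = n (n - 1)`, `two_NN`), so `T/(N-T) ≤ 4 C / n` and `n^2 (4 C/n)^(m+1) = (4C)^(m+1) / n^(m-1)`
(`m ≥ 2`; `m - 1` natural subtraction).
-/

open Finset
open scoped Classical Nat

namespace Pool.Agent.Work.MP_73831e_pr.F

theorem mass_star (C m : ℕ) (hC : 1 ≤ C) (hm : 2 ≤ m) : ∃ n₀ : ℕ, ∀ n ≥ n₀, ∀ M : ℕ,
    ∀ (Q : Finset (Pr n) → Fin n → Prop) (P : Finset (Pr n) → Prop)
      (𝒯 : Finset (Pr n) → Finset (Fin (m + 1) → Fin n)),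
    (∀ D x, FC m M D x → Q D x → dg D x = m + 1 ∧ P (D \ st x) ∧
      ∀ v : Fin (m + 1) → Fin n, (∀ i, v i ∈ nb D x) → Function.Injective v →
        v ∈ 𝒯 (D \ st x)) →
    mass m M (C * n) Q ≤ (4 * (C : ℝ)) ^ (m + 1) / (n : ℝ) ^ (m - 1) *
      ∑ H ∈ univ.filter (fun H : Finset (Pr n) => H.card ≤ C * n ∧ P H),
        nu H * ((𝒯 H).card : ℝ) := by
  sorry

end Pool.Agent.Work.MP_73831e_pr.F
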