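import Pool.Agent.Work.MP_73831e_pr.F.S5.Defs5

/-!
MODULE S5/Pair (S).  Two quasi-rainbow `(m+1)`-tuples which differ at one coordinate.

Let `C`, `C'` be big families witnessing `QR` for `v` and `w`.  Let `f` be a proper `(m+1)`-colouring
of `gr H` with `f (v i) ≠ f (w i)`.  Then `Cst C f` or `Cst C' f`: otherwise `f ∘ v` and `f ∘ w` are
injective maps `Fin (m+1) → Fin (m+1)`, so bijective, and equal except at `i`; the value `f (w i)` is
`f (v j)` for some `j`; if `j ≠ i` then `f (w j) = f (v j) = f (w i)` contradicts injectivity of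
`f ∘ w`; so `j = i`, contradiction with `f (v i) ≠ f (w i)`.
Let `e : Pr n` be the pair `s(v i, w i)` (`v i ≠ w i`).  If `e ∈ H` every proper colouring of `gr H` has
`f (v i) ≠ f (w i)` (adjacent), so `Clu m 2 K H` (families `C`, `C'`: `![C, C']`), excluded.  So `e ∉ H`, and
every proper colouring of `gr (insert e H)` is proper for `gr H` and has `f (v i) ≠ f (w i)`, so
`Clu m 2 K (insert e H)`.
Second statement: omitting a coordinate of a quasi-rainbow tuple (same family; injectivity on fewer
coordinates).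
-/

open Finset
open scoped Classical Nat

namespace Pool.Agent.Work.MP_73831e_pr.F

theorem qr_pair {n m K : ℕ} {H : Finset (Pr n)} (hc : ¬ Clu m 2 K H)
    {v w : Fin (m + 1) → Fin n} (hv : v ∈ QT m K (m + 1) H) (hw : w ∈ QT m K (m + 1) H)
    {i : Fin (m + 1)} (hvw : ∀ j, j ≠ i → v j = w j) (hne : v i ≠ w i) :
    ∃ e ∈ X2 m K H, e.1 = s(v i, w i) := by
  sorry

theorem qr_omit {n m K : ℕ} {H : Finset (Pr n)} {v : Fin (m + 1) → Fin n}
    (hv : v ∈ QT m K (m + 1) H) (i : Fin (m + 1)) :
    (fun j => v (i.succAbove j)) ∈ QT m K m H := by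
  sorry

end Pool.Agent.Work.MP_73831e_pr.F
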