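import Pool.Agent.Work.MP_73831e_pr.F.S5.Defs5
import Pool.Agent.Work.MP_73831e_pr.F.S2.Nu
import Pool.Agent.Work.MP_73831e_pr.F.S2.Exit
import Pool.Agent.Work.MP_73831e_pr.F.S2.Time
import Pool.Agent.Work.MP_73831e_pr.F.K.Small

/-!
MODULE S5/SSle (S-M).  The weighted number of the pairs of `X2` is at most a probability.

Let `N = Fintype.card (Pr n)`, `n` so large that `C n < N`.  For `|H| ≤ C n`:
`nu H = wf H * (N - |H|) / (N + 1) ≤ wf H` (`wt`, `wf`, `nu` unfolded).  Let `A H = ¬ Clu m 2 K H`, a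
decreasing property (`Clu.mono` in K/Small), and `B' H = (|H| ≤ C n ∧ Fa m M H ∧ B H)`.
First part: `∑_H nu H |X2 m K H| ≤ ∑_H ∑_{e ∉ H, A H, ¬ A (insert e H), B' H} wf H =
Wf (fun H e => A H ∧ ¬ A (insert e H) ∧ B' H) ≤ prob (∃ t, A (pre ω t) ∧ .. ∧ B' (pre ω t))` by
`exit_prob`; for `t : Fin N`, `|pre ω t| = t` (`pre_card`), so `t ≤ C n` and the event is contained in
`∃ t ≤ C n, Fa m M (pre ω t) ∧ B (pre ω t)` (`prob_mono`).
Second part: `∑_H nu H * n ≤ n ∑_{|H| ≤ C n, Fa ∧ B} wf H ≤ 4 C prob (∃ t ≤ C n, Fa ∧ B)` by `wf_time`.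
-/

open Finset
open scoped Classical Nat

namespace Pool.Agent.Work.MP_73831e_pr.F

theorem ss_le (C : ℕ) (hC : 1 ≤ C) : ∃ n₀ : ℕ, ∀ n ≥ n₀, ∀ m M K : ℕ,
    ∀ B : Finset (Pr n) → Prop,
      SS m M K (C * n) n B ≤
        (1 + 4 * (C : ℝ)) * prob (fun ω : Ordr (Pr n) =>
          ∃ t ≤ C * n, Fa m M (pre ω t) ∧ B (pre ω t)) := by
  sorry

end Pool.Agent.Work.MP_73831e_pr.F
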