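import Pool.Agent.Work.MP_73831e_pr.F.S5.Comb
import Pool.Agent.Work.MP_73831e_pr.F.S5.Pair
import Pool.Agent.Work.MP_73831e_pr.F.S2.Nu

/-!
MODULE S5/Tup (S-M).  The weighted number of quasi-rainbow `(m+1)`-tuples, with real constants.

For `H` with `¬ Clu m 2 K H` apply `comb` with `𝒯 = QT m K (m+1) H`, `𝒮 = QT m K m H`, `X = X2 m K H`
(`qr_omit`, `qr_pair`): `q n |𝒯| ≤ (|X| + n) ((m+1) q^2 |𝒮| + 8 n^m)`.  `n ≥ 1`, `m ≥ 2`.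
If `¬ MQ m K B H`, i.e. `B |𝒮| < n^m` (so `B ≥ 1` or trivial: assume `B ≥ 1`), then
`|𝒯| ≤ (|X| + n) n^(m-1) ((m+1) q / B + 8 / q)`.  If `MQ m K B H`, use `|𝒮| ≤ n^m`:
`|𝒯| ≤ (|X| + n) n^(m-1) ((m+1) q + 8)` (`8 / q ≤ 8`).  Multiply by `nu H ≥ 0` and sum over the `H` with
`|H| ≤ T`, `Fa m M H`, `¬ Clu m 2 K H`: the sum over the `H` with `¬ MQ` is at most
`n^(m-1) ((m+1) q/B + 8/q) * SS .. True` and the other is
`n^(m-1) ((m+1) q + 8) * SS .. (MQ m K B)`.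
-/

open Finset
open scoped Classical Nat

namespace Pool.Agent.Work.MP_73831e_pr.F

theorem tup_sum {n m M K T q B : ℕ} (hm : 2 ≤ m) (hq : 1 ≤ q) (hB : 1 ≤ B) (hn : 1 ≤ n) :
    ∑ H ∈ univ.filter (fun H : Finset (Pr n) => H.card ≤ T ∧ (Fa m M H ∧ ¬ Clu m 2 K H)),
        nu H * ((QT m K (m + 1) H).card : ℝ) ≤
      (n : ℝ) ^ (m - 1) *
        ((((m : ℝ) + 1) * q / B + 8 / q) * SS m M K T n (fun _ => True) +
          (((m : ℝ) + 1) * q + 8) * SS m M K T n (MQ m K B)) := by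
  sorry

end Pool.Agent.Work.MP_73831e_pr.F
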