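import Pool.Agent.Work.MP_73831e_pr.F.S5.StarQR
import Pool.Agent.Work.MP_73831e_pr.F.S5.MassStar
import Pool.Agent.Work.MP_73831e_pr.F.S5.SSle
import Pool.Agent.Work.MP_73831e_pr.F.S5.Tup
import Pool.Agent.Work.MP_73831e_pr.F.S2.Disc

/-!
MODULE S5/Rainbow (S-M, assembly).  If the fully critical vertices of degree at most `m + 1` have mass
`≥ c`, then with probability `≥ c'` the process meets a graph in `Fa` with many quasi-rainbow
`m`-tuples (or the negligible probability `err` is not small).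

`K = 2 K₃`, `R = 2`.  `discard`: `mass Q ≤ mass (Q ∧ Gp) + 8 C err`.  For `(D, x)` in `FC` with
`Q ∧ Gp`: `Ty D`, `dg D x ≤ m + 1`, so `dg D x = m + 1` (`star_deg`), `H = D \ st x` is in `Fa` (it is
contained in `D.erase e` for an edge `e ∈ D` at `x`, `FC`, `Fa.anti`) and `¬ Clu m 2 K H` (`Gp` for this
`e` and `Clu.mono`, `H ⊆ D.erase e`), and every injective enumeration `v` of `nb D x` is in
`QT m K (m+1) H` (`star_qr`).  `mass_star` with `P H = Fa m M H ∧ ¬ Clu m 2 K H`,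
`𝒯 = QT m K (m+1)`, then `tup_sum`, `ss_le` (with `B = True`: `prob ≤ 1`; and with `B = MQ`):
`c ≤ 8 C err + A (1 + 4 C) [((m+1) q/B + 8/q) + ((m+1) q + 8) p]`, `A = (4C)^(m+1)` (the powers
`n^(m-1)` cancel, `n ≥ 1`), `p = prob (∃ t ≤ C n, Fa ∧ MQ)`.  Choose `q ≥ 1` with
`A (1+4C) 8/q ≤ c/8`, then `B ≥ 1` with `A (1+4C) (m+1) q/B ≤ c/8`, and
`c' = min (c / (32 C)) ((c/2) / (A (1+4C) ((m+1) q + 8)))`: then `8 C err ≤ c/4` and
`p ≥ c'`.
-/

open Finset
open scoped Classical Nat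

namespace Pool.Agent.Work.MP_73831e_pr.F

theorem rainbow {m M C K₁ K₃ K₄ : ℕ} (hm : 2 ≤ m) (hM : 4 ≤ M) (hC : 1 ≤ C) (hK1 : 1 ≤ K₁)
    (hK3 : 4 * K₁ ≤ K₃) {c : ℝ} (hc : 0 < c) :
    ∃ c' : ℝ, 0 < c' ∧ ∃ B : ℕ, ∀ L : ℕ, ∃ n₀ : ℕ, ∀ n ≥ n₀,
      ∀ Q : Finset (Pr n) → Fin n → Prop, (∀ D x, Q D x → dg D x ≤ m + 1) →
        c ≤ mass m M (C * n) Q → err m M C K₁ K₃ K₄ L 2 (2 * K₃) n ≤ c' →
        c' ≤ prob (fun ω : Ordr (Pr n) =>
          ∃ t ≤ C * n, Fa m M (pre ω t) ∧ MQ m (2 * K₃) B (pre ω t)) := by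
  obtain ⟨n₁, hn₁⟩ := mass_star C m hC hm
  obtain ⟨n₂, hn₂⟩ := ss_le C hC
  have hC0 : (0 : ℝ) < C := by exact_mod_cast hC
  set A : ℝ := (4 * (C : ℝ)) ^ (m + 1) with hA
  have hA0 : 0 < A := by positivity
  set E : ℝ := 1 + 4 * (C : ℝ) with hE
  have hE0 : 0 < E := by positivity
  obtain ⟨q, hq⟩ := exists_nat_gt (64 * (A * E) / c)
  have hq0 : (0 : ℝ) < q := lt_trans (by positivity) hq
  have hq1 : 1 ≤ q := by
    have : 0 < q := by exact_mod_cast hq0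
    exact this
  obtain ⟨B, hB⟩ := exists_nat_gt (8 * (A * E) * ((m + 1) * q) / c)
  have hB0 : (0 : ℝ) < B := lt_trans (by positivity) hB
  have hB1 : 1 ≤ B := by
    have : 0 < B := by exact_mod_cast hB0
    exact this
  set X : ℝ := A * E * ((m + 1) * q + 8) with hX
  have hX0 : 0 < X := by positivity
  have e1 : A * E * (8 / q) ≤ c / 8 := by
    rw [div_lt_iff₀ hc] at hq
    rw [mul_div_assoc', div_le_iff₀ hq0]
    nlinarith
  have e2 : A * E * ((m + 1) * q / B) ≤ c / 8 := by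
    rw [div_lt_iff₀ hc] at hB
    rw [mul_div_assoc', div_le_iff₀ hB0]
    nlinarith
  refine ⟨min (c / (32 * C)) (c / 2 / X), lt_min (by positivity) (by positivity), B, ?_⟩
  intro L
  refine ⟨max (max n₁ n₂) (K₁ * (M + m + 1) + 2 * K₃ + 1), ?_⟩
  intro n hn Q hQ hmass herr
  have hna : n₁ ≤ n := (le_max_left _ _).trans ((le_max_left _ _).trans hn)
  have hnb : n₂ ≤ n := (le_max_right _ _).trans ((le_max_left _ _).trans hn)
  have hnc : K₁ * (M + m + 1) + 2 * K₃ + 1 ≤ n := (le_max_right _ _).trans hn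
  have hdiv : M + m + 1 ≤ n / K₁ := by
    rw [Nat.le_div_iff_mul_le (by omega), Nat.mul_comm]
    omega
  have hn1 : 1 ≤ n := by omega
  have h1 := discard (m := m) (M := M) (C := C) (K₁ := K₁) (K₃ := K₃) (K₄ := K₄) (L := L) (R := 2)
    (K := 2 * K₃) Q
  have h2 := hn₁ n hna M (fun D x => Q D x ∧ Gp K₁ K₃ K₄ L m 2 (2 * K₃) D x)
    (fun H => Fa m M H ∧ ¬ Clu m 2 (2 * K₃) H) (QT m (2 * K₃) (m + 1)) (by
      rintro D x hFC ⟨hQ1, hG⟩
      have hd := star_deg hm hM (by omega) hG.1 hFC (hQ D x hQ1)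
      obtain ⟨y, hy⟩ := hFC.2.1
      have hadj : (gr D).Adj x y := by
        unfold nb at hy
        exact (mem_filter.1 hy).2
      obtain ⟨e, he, hex⟩ := gr_adj'.1 hadj
      have hxe : x ∈ e.1 := by
        rw [hex]
        exact Sym2.mem_mk_left x y
      have hsub : D \ st x ⊆ D.erase e := by
        intro a ha
        rw [mem_sdiff] at ha
        rw [mem_erase]
        refine ⟨?_, ha.1⟩
        rintro rfl
        apply ha.2
        simpa [st] using hxe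
      refine ⟨hd, ⟨(hFC.2.2 e he hxe).anti hsub, fun hcl => hG.2 e he hxe (hcl.mono hsub)⟩, ?_⟩
      intro v hv hinj
      unfold QT
      rw [mem_filter]
      exact ⟨mem_univ _, star_qr hm hM hK1 hK3 (by omega) (by omega) hG.1 hFC hd v hv hinj⟩)
  have h3 := tup_sum (n := n) (m := m) (M := M) (K := 2 * K₃) (T := C * n) (q := q) (B := B)
    hm hq1 hB1 hn1
  have h4 := hn₂ n hnb m M (2 * K₃) (fun _ => True)
  have h5 := hn₂ n hnb m M (2 * K₃) (MQ m (2 * K₃) B)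
  set p : ℝ := prob (fun ω : Ordr (Pr n) =>
    ∃ t ≤ C * n, Fa m M (pre ω t) ∧ MQ m (2 * K₃) B (pre ω t)) with hp
  have h4' : SS m M (2 * K₃) (C * n) n (fun _ => True) ≤ E := by
    refine h4.trans ?_
    calc E * prob (fun ω : Ordr (Pr n) => ∃ t ≤ C * n, Fa m M (pre ω t) ∧ True) ≤ E * 1 :=
          mul_le_mul_of_nonneg_left (prob_le_one _) hE0.le
      _ = E := mul_one E
  set S0 := ∑ H ∈ univ.filter (fun H : Finset (Pr n) => H.card ≤ C * n ∧
    (Fa m M H ∧ ¬ Clu m 2 (2 * K₃) H)), nu H * ((QT m (2 * K₃) (m + 1) H).card : ℝ) with hS0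
  have hnm : (0 : ℝ) < (n : ℝ) ^ (m - 1) := by
    have : (0 : ℝ) < n := by exact_mod_cast hn1
    positivity
  have h6 : S0 ≤ (n : ℝ) ^ (m - 1) * ((((m : ℝ) + 1) * q / B + 8 / q) * E +
      (((m : ℝ) + 1) * q + 8) * (E * p)) := by
    refine h3.trans ?_
    apply mul_le_mul_of_nonneg_left _ hnm.le
    gcongr
  have h7 : mass m M (C * n) (fun D x => Q D x ∧ Gp K₁ K₃ K₄ L m 2 (2 * K₃) D x) ≤
      A * ((((m : ℝ) + 1) * q / B + 8 / q) * E + (((m : ℝ) + 1) * q + 8) * (E * p)) := by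
    have h2' : mass m M (C * n) (fun D x => Q D x ∧ Gp K₁ K₃ K₄ L m 2 (2 * K₃) D x) ≤
        A / (n : ℝ) ^ (m - 1) * S0 := by
      refine h2.trans (le_of_eq ?_)
      rw [hS0]
      congr!
    refine h2'.trans ?_
    calc A / (n : ℝ) ^ (m - 1) * S0 ≤ A / (n : ℝ) ^ (m - 1) * ((n : ℝ) ^ (m - 1) *
          ((((m : ℝ) + 1) * q / B + 8 / q) * E + (((m : ℝ) + 1) * q + 8) * (E * p))) :=
          mul_le_mul_of_nonneg_left h6 (by positivity)
      _ = _ := by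
          rw [← mul_assoc, div_mul_cancel₀ _ hnm.ne']
  have h8 : 8 * (C : ℝ) * err m M C K₁ K₃ K₄ L 2 (2 * K₃) n ≤ c / 4 := by
    have h9 : err m M C K₁ K₃ K₄ L 2 (2 * K₃) n ≤ c / (32 * C) := herr.trans (min_le_left _ _)
    calc 8 * (C : ℝ) * err m M C K₁ K₃ K₄ L 2 (2 * K₃) n ≤ 8 * C * (c / (32 * C)) :=
          mul_le_mul_of_nonneg_left h9 (by positivity)
      _ = c / 4 := by
          field_simp
          ring
  have h10 : c / 2 ≤ X * p := by
    have h11 : A * ((((m : ℝ) + 1) * q / B + 8 / q) * E + (((m : ℝ) + 1) * q + 8) * (E * p)) =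
        A * E * ((m + 1) * q / B) + A * E * (8 / q) + X * p := by
      rw [hX]
      ring
    linarith
  refine (min_le_right _ _).trans ?_
  rw [div_le_iff₀ hX0]
  linarith

end Pool.Agent.Work.MP_73831e_pr.F
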