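import Pool.Agent.Work.MP_73831e_pr.F.S2.Disc
import Pool.Agent.Work.MP_73831e_pr.Edges
import Pool.Agent.Work.MP_73831e_pr.Peel

/-!
MODULE S5/StarDeg (S-M).  A fully critical vertex of degree at most `m + 1` has degree `m + 1`.

Let `D' = D \ st x`, `k = m + 1` colours.  There is `e ∈ D` at `x` (`nb D x` nonempty) and
`D' ⊆ D.erase e`, so `Fa m M D'` (`Fa.anti`).  Suppose `dg D x ≤ m`.
`D` is alive: a proper colouring of `gr D'` recoloured at `x` with a colour not used on the at most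
`m` neighbours of `x` is proper for `gr D` (the edges of `gr D` not at `x` are those of `gr D'`).
As `¬ Fa m M D`, `Um (m+1) M (gr D)`, so `Um (m+1) 4`, so `Um (m+1) (n / K₁ + 2) (gr D)` by
`sparse_um` (`Ty.sp`).  Let `H ≤ gr D`, `W`, `UQ (m+1) H W`, `|W| ≥ n / K₁ + 2`.  `x` has at most
`m < m + 1` neighbours in `H`, so `peel` gives `UQ (m+1) (delV H x) (W.erase x)`, and
`delV H x ≤ gr D'`, `|W.erase x| ≥ n / K₁ + 1 ≥ M`: so `Um (m+1) M (gr D')`, contradicting `Fa m M D'`.
-/

open Finset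
open scoped Classical Nat

namespace Pool.Agent.Work.MP_73831e_pr.F

/-- Recolouring the centre of a star: if `f` is a proper colouring of `D \ st x` and `c` is not used
on the neighbours of `x` in `D`, then `f` changed at `x` to `c` is proper for `D`. -/
theorem star_recol {n k : ℕ} {D : Finset (Pr n)} {x : Fin n} {f : Fin n → Fin k}
    (hf : PC k (gr (D \ st x)) f) {c : Fin k} (hc : ∀ y ∈ nb D x, f y ≠ c) :
    PC k (gr D) (Function.update f x c) := by
  sorry

theorem star_deg {n m M K₁ K₃ K₄ L : ℕ} (hm : 2 ≤ m) (hM : 4 ≤ M) (hn : M ≤ n / K₁ + 1)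
    {D : Finset (Pr n)} {x : Fin n} (hT : Ty K₁ K₃ K₄ L D) (hFC : FC m M D x)
    (hd : dg D x ≤ m + 1) : dg D x = m + 1 := by
  sorry

end Pool.Agent.Work.MP_73831e_pr.F
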