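import Pool.Agent.Work.MP_73831e_pr.F.S5.StarDeg
import Pool.Agent.Work.MP_73831e_pr.Nbr

/-!
MODULE S5/StarQR (S-M).  The neighbours of a fully critical vertex of degree `m + 1` form a
quasi-rainbow tuple of the graph without the star.

Let `D' = D \ st x`.
Case A: `D` is not alive.  Then every proper colouring `f` of `gr D'` is injective on the tuple `v`:
otherwise `f` uses at most `m` colours on `nb D x = {v i}` (`v` is injective with values in `nb D x`,
of cardinality `m + 1`, so every neighbour is some `v i`), a colour `c` is free, and `star_recol` gives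
a proper colouring of `gr D`.  Take `C i = univ` (`Big`: `n ≤ 2 K₃ n`).
Case B: `D` is alive.  As `¬ Fa m M D`: `Um (m+1) M (gr D)`, so `Um (m+1) 4`, and
`Um (m+1) (n / K₁ + 2) (gr D)` by `sparse_um`; `classes` (Nbr.lean; `DegOK (2 K₁) K₃` follows from
`DegOK (4 K₁) K₃`) gives `C'` with `IsCl K₃ (gr D) C'`.  Put `C i = (C' i).erase x`: `Big (2 K₃) C`
because `n ≤ K₃ |C' i|`, `|C i| ≥ |C' i| - 1` and `n ≥ 2 K₃` (`2 K₃ (|C' i| - 1) ≥ 2 n - 2 K₃ ≥ n`).
If a proper colouring `f` of `gr D'` is not injective on `v`, then as before some colour `c` is free at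
`x` and `f' = Function.update f x c` is proper for `gr D`; `IsCl.col` for `f'` gives `π` with
`f' w = π i.castSucc` on `C' i`, and `f' = f` on `C i`; so `Cst C f`.
-/

open Finset
open scoped Classical Nat

namespace Pool.Agent.Work.MP_73831e_pr.F

private theorem free_col {n m : ℕ} {D : Finset (Pr n)} {x : Fin n} (hd : dg D x = m + 1)
    (v : Fin (m + 1) → Fin n) (hv : ∀ i, v i ∈ nb D x) (hinj : Function.Injective v)
    (f : Fin n → Fin (m + 1)) (hf : ¬ Function.Injective (fun i => f (v i))) :
    ∃ c, ∀ y ∈ nb D x, f y ≠ c := by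
  have h1 : ¬ Function.Surjective (fun i => f (v i)) := fun h =>
    hf (Finite.injective_iff_surjective.2 h)
  unfold Function.Surjective at h1
  push Not at h1
  obtain ⟨c, hc⟩ := h1
  refine ⟨c, fun y hy => ?_⟩
  have h2 : (univ : Finset (Fin (m + 1))).image v = nb D x := by
    apply Finset.eq_of_subset_of_card_le
    · intro z hz
      obtain ⟨i, -, rfl⟩ := Finset.mem_image.1 hz
      exact hv i
    · rw [Finset.card_image_of_injective _ hinj, Finset.card_univ, Fintype.card_fin]
      exact hd.le
  rw [← h2] at hy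
  obtain ⟨i, -, rfl⟩ := Finset.mem_image.1 hy
  exact hc i

theorem star_qr {n m M K₁ K₃ K₄ L : ℕ} (hm : 2 ≤ m) (hM : 4 ≤ M) (hK1 : 1 ≤ K₁)
    (hK : 4 * K₁ ≤ K₃) (hn : m + 1 ≤ n / K₁ + 2) (hn' : 2 * K₃ ≤ n)
    {D : Finset (Pr n)} {x : Fin n} (hT : Ty K₁ K₃ K₄ L D) (hFC : FC m M D x)
    (hd : dg D x = m + 1) (v : Fin (m + 1) → Fin n) (hv : ∀ i, v i ∈ nb D x)
    (hinj : Function.Injective v) : QR m (2 * K₃) (D \ st x) v := by
  by_cases hal : Alive (m + 1) (gr D)
  · have hU : Um (m + 1) M (gr D) := by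
      by_contra h
      exact hFC.1 ⟨hal, h⟩
    have hU2 := sparse_um (k := m + 1) (by omega) hT.sp (hU.of_le hM)
    have hdeg : DegOK (2 * K₁) K₃ (gr D) := by
      intro T hT'
      have h1 := hT.deg T hT'
      refine lt_of_le_of_lt (Nat.mul_le_mul_right _ ?_) h1
      omega
    obtain ⟨C', hC'⟩ := classes hm hK1 (by omega) hn hU2 hal hdeg
    refine ⟨fun i => (C' i).erase x, ?_, ?_⟩
    · intro i
      have h1 := hC'.big i
      have h2 : (C' i).card ≤ ((C' i).erase x).card + 1 := by
        have := Finset.pred_card_le_card_erase (s := C' i) (a := x)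
        omega
      have h3 : n ≤ K₃ * (((C' i).erase x).card + 1) := h1.trans (Nat.mul_le_mul_left _ h2)
      change n ≤ 2 * K₃ * ((C' i).erase x).card
      nlinarith
    · intro f hf
      by_cases hi : Function.Injective (fun i => f (v i))
      · exact Or.inl hi
      · right
        obtain ⟨c, hc⟩ := free_col hd v hv hinj f hi
        obtain ⟨π, hπ⟩ := hC'.col _ (star_recol hf hc)
        refine ⟨π, fun i w hw => ?_⟩
        have h1 := hπ i w (Finset.mem_of_mem_erase hw)
        rwa [Function.update_of_ne (Finset.ne_of_mem_erase hw)] at h1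
  · refine ⟨fun _ => univ, ?_, ?_⟩
    · intro i
      change n ≤ 2 * K₃ * (univ : Finset (Fin n)).card
      rw [Finset.card_univ, Fintype.card_fin]
      exact Nat.le_mul_of_pos_left _ (by omega)
    · intro f hf
      left
      by_contra hi
      obtain ⟨c, hc⟩ := free_col hd v hv hinj f hi
      exact hal ⟨_, star_recol hf hc⟩

end Pool.Agent.Work.MP_73831e_pr.F
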